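import Pool.Agent.Helper57_C2.Stmts
import Pool.Agent.Helper86_K9.SEC

/-!
# Squad C2, row SEC2: orthogonality relations for the `A_χ`, for `u` of order `ℓ ^ n`

Same proof as row SEC of squad K9 (`Pool/Agent/Helper86_K9/SEC.lean`).
-/

open scoped BigOperators

set_option linter.unusedSectionVars false

noncomputable section

namespace Pool.Agent.PP.C2.H25

open Pool.Agent.Helper51_AWC Pool.Agent.Helper79_WRA Pool.Agent.PP Pool.Agent.PP.KF
open Pool.Agent.PP.K9 Pool.Agent.PP.K9.H86

section quot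

variable {ℓ : ℕ} [hℓ : Fact ℓ.Prime] {C H : Type} [Group C] [Finite C] [Group H] [Finite H]
  {π : C →* H} {n : ℕ}

theorem reg_lift (hsur : Function.Surjective π) (hk : ∀ c : C, π c = 1 → c ^ ℓ ^ n = 1) {h : H}
    (hh : Reg ℓ h) : ∃ s : C, Reg ℓ s ∧ π s = h := by
  obtain ⟨c, rfl⟩ := hsur h
  obtain ⟨m, hm⟩ : ∃ m, m = orderOf (π c) := ⟨_, rfl⟩
  have hcop0 : Nat.Coprime m ℓ := by rw [hm]; exact hh
  have hcop : Nat.Coprime m (ℓ ^ n) := hcop0.pow_right n
  obtain ⟨k, hk1, hk0⟩ := Nat.chineseRemainder hcop 1 0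
  have hk0' : ℓ ^ n ∣ k := (Nat.modEq_zero_iff_dvd).1 hk0
  have hcm : (c ^ m) ^ ℓ ^ n = 1 := by
    apply hk
    rw [map_pow, hm, pow_orderOf_eq_one]
  refine ⟨c ^ k, ?_, ?_⟩
  · have h1 : (c ^ k) ^ m = 1 := by
      obtain ⟨j, rfl⟩ := hk0'
      rw [← pow_mul]
      have : ℓ ^ n * j * m = m * ℓ ^ n * j := by ring
      rw [this, pow_mul, pow_mul, hcm, one_pow]
    exact Nat.Coprime.coprime_dvd_left (orderOf_dvd_of_pow_eq_one h1) hcop0
  · rw [map_pow]
    conv_rhs => rw [← pow_one (π c)]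
    rw [pow_eq_pow_iff_modEq, ← hm]
    exact hk1

theorem reg_uniq (hk : ∀ c : C, π c = 1 → c ^ ℓ ^ n = 1)
    (hc : ∀ c d : C, π c = 1 → c * d = d * c)
    {s s' : C} (hs : Reg ℓ s) (hs' : Reg ℓ s') (h : π s = π s') : s = s' := by
  obtain ⟨N, -, hN⟩ := H27.prt ℓ C
  have h1 : π (s⁻¹ * s') = 1 := by rw [map_mul, map_inv, h, inv_mul_cancel]
  have h2 : s' = s * (s⁻¹ * s') := by group
  have h3 : s' ^ N = s := by
    rw [h2]
    exact hN s (s⁻¹ * s') (hc _ s h1).symm hs ⟨n, hk _ h1⟩
  have h4 : s' ^ N = s' := by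
    have := hN s' 1 (Commute.one_right s') hs' ⟨0, one_pow _⟩
    rwa [mul_one] at this
  rw [← h3, h4]

open Classical in
theorem sum_reg [Fintype C] [Fintype H] (hsur : Function.Surjective π)
    (hk : ∀ c : C, π c = 1 → c ^ ℓ ^ n = 1) (hc : ∀ c d : C, π c = 1 → c * d = d * c)
    (f : H → ℂ) :
    ∑ s : C, (if Reg ℓ s then f (π s) else 0) = ∑ h : H, if Reg ℓ h then f h else 0 := by
  rw [← Finset.sum_filter, ← Finset.sum_filter]
  refine Finset.sum_bij (fun s _ => π s) ?_ ?_ ?_ ?_
  · intro s hs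
    rw [Finset.mem_filter] at hs ⊢
    exact ⟨Finset.mem_univ _, reg_map hs.2⟩
  · intro s hs s' hs' h
    rw [Finset.mem_filter] at hs hs'
    exact reg_uniq hk hc hs.2 hs'.2 h
  · intro h hh
    rw [Finset.mem_filter] at hh
    obtain ⟨s, hs, hs2⟩ := reg_lift hsur hk hh.2
    exact ⟨s, Finset.mem_filter.2 ⟨Finset.mem_univ _, hs⟩, hs2⟩
  · intro s _
    rfl

end quot

variable {ℓ : ℕ} [hℓ : Fact ℓ.Prime] {G H : Type} [Group G] [Finite G] [Group H] [Finite H]
  {u : G} {π : Cu u →* H} {n : ℕ}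

theorem mem_pow {w : G} (hw : w ∈ Subgroup.zpowers u) (hu : orderOf u = ℓ ^ n) :
    w ^ ℓ ^ n = 1 := by
  obtain ⟨k, rfl⟩ := hw
  rw [← zpow_natCast, ← zpow_mul, mul_comm, zpow_mul, zpow_natCast, ← hu, pow_orderOf_eq_one,
    one_zpow]

theorem gen_pow {j : ℕ} (hj : j.Coprime ℓ) (hu : orderOf u = ℓ ^ n) :
    ∃ k : ℕ, u = (u ^ j) ^ k := by
  have h1 : Nat.Coprime j (orderOf u) := by
    rw [hu]
    exact hj.pow_right n
  obtain ⟨k, hk⟩ := exists_pow_eq_self_of_coprime h1
  exact ⟨k, hk.symm⟩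

/-- the parts of conjugate elements are conjugate -/
theorem parts_conj (hu : orderOf u = ℓ ^ n) {w w' : G} (hw : w ∈ Subgroup.zpowers u)
    (hw' : w' ∈ Subgroup.zpowers u) {s s' : Cu u} (hs : Reg ℓ s) (hs' : Reg ℓ s') {x : G}
    (h : x⁻¹ * (w * s) * x = w' * s') : x⁻¹ * w * x = w' ∧ x⁻¹ * s * x = s' := by
  obtain ⟨N, -, hN⟩ := H27.prt ℓ G
  have key : ∀ (v : G) (_ : v ∈ Subgroup.zpowers u) (t : Cu u) (_ : Reg ℓ t), (v * t) ^ N = t := by
    intro v hv t ht
    have h1 := comm_pow hv t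
    rw [← h1.eq]
    exact hN t v h1 (reg_coe ht) ⟨n, mem_pow hv hu⟩
  have h1 : x⁻¹ * s * x = s' := by
    rw [← key w' hw' s' hs', ← h]
    have h2 : x⁻¹ * (w * s) * x = x⁻¹ * (w * s) * (x⁻¹)⁻¹ := by group
    rw [h2, conj_pow, key w hw s hs]
    group
  refine ⟨?_, h1⟩
  have h2 : x⁻¹ * (w * s) * x = (x⁻¹ * w * x) * (x⁻¹ * s * x) := by group
  rw [h2, h1] at h
  exact mul_right_cancel h

theorem qt_pow (hQ : Qn (ℓ ^ n) u π) (c : Cu u) (h : π c = 1) : c ^ ℓ ^ n = 1 := by
  have h1 := (hQ.ker c).1 h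
  apply Subtype.ext
  exact mem_pow h1 hQ.ord

theorem qt_comm (hQ : Qn (ℓ ^ n) u π) (c d : Cu u) (h : π c = 1) : c * d = d * c := by
  have h1 := (hQ.ker c).1 h
  apply Subtype.ext
  exact (comm_pow h1 d).eq.symm

theorem qt_card (hQ : Qn (ℓ ^ n) u π) : Nat.card (Cu u) = ℓ ^ n * Nat.card H := by
  rw [card_eq hQ.sur]
  congr 1
  have h1 : Nat.card π.ker = Nat.card (Subgroup.zpowers u) := by
    refine Nat.card_congr
      { toFun := fun k => ⟨((k : Cu u) : G), (hQ.ker _).1 k.2⟩
        invFun := fun g => ⟨⟨g, ?_⟩, (hQ.ker _).2 g.2⟩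
        left_inv := fun k => rfl
        right_inv := fun g => rfl }
    rw [Subgroup.mem_centralizer_singleton_iff]
    obtain ⟨k, hk⟩ := g.2
    rw [← hk]
    exact ((Commute.refl u).zpow_left k).eq
  rw [h1, Nat.card_zpowers, hQ.ord]

theorem sec2 : Sec2Stmt := by
  intro ℓ _ n G H _ _ _ _ u π hQ p q hp hq j hj
  classical
  obtain ⟨w, hwj⟩ : ∃ w, w = u ^ j := ⟨_, rfl⟩
  have hw : w ∈ Subgroup.zpowers u := by
    rw [hwj]
    exact Subgroup.pow_mem _ (Subgroup.mem_zpowers u) j
  rw [← hwj]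
  have := Fintype.ofFinite G
  have := Fintype.ofFinite H
  have := Fintype.ofFinite (Cu u)
  have := Fintype.ofFinite (Irr G)
  -- the general form
  have gen : ∀ w' ∈ Subgroup.zpowers u,
      ∑ᶠ χ ∈ Irr G, Av ℓ π w p χ * starRingEnd ℂ (Av ℓ π w' q χ) =
      ((Nat.card H : ℂ)⁻¹ * (Nat.card H : ℂ)⁻¹) * ∑ x : G, ∑ s : Cu u, ∑ s' : Cu u,
        if x⁻¹ * (w * s) * x = w' * s' then
          (if Reg ℓ s then starRingEnd ℂ (p (π s)) else 0) * (if Reg ℓ s' then q (π s') else 0)
        else 0 := by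
    intro w' _
    rw [finsum_irr, ← pair, Finset.mul_sum]
    refine Finset.sum_congr rfl fun χ _ => ?_
    rw [av_eq, av_star w' q χ.2]
    ring
  refine ⟨?_, ?_⟩
  · rw [gen w hw]
    -- the inner sums
    have h1 : ∀ x : G, ∑ s : Cu u, ∑ s' : Cu u, (if x⁻¹ * (w * s) * x = w * s' then
          (if Reg ℓ s then starRingEnd ℂ (p (π s)) else 0) * (if Reg ℓ s' then q (π s') else 0)
        else 0) = if x ∈ Cu u then
          ∑ s : Cu u, (if Reg ℓ s then starRingEnd ℂ (p (π s)) * q (π s) else 0) else 0 := by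
      intro x
      by_cases hx : x ∈ Cu u
      · rw [if_pos hx]
        refine Finset.sum_congr rfl fun s _ => ?_
        by_cases hs : Reg ℓ s
        · obtain ⟨t, ht⟩ : ∃ t : Cu u, t = ⟨x, hx⟩⁻¹ * s * ⟨x, hx⟩ := ⟨_, rfl⟩
          have hxw : x⁻¹ * w * x = w := by
            have := (comm_pow hw ⟨x, hx⟩).eq
            change x * w = w * x at this
            rw [mul_assoc, ← this]
            group
          rw [Finset.sum_eq_single t]
          · have e1 : x⁻¹ * (w * s) * x = w * t := by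
              have : x⁻¹ * (w * s) * x = (x⁻¹ * w * x) * (x⁻¹ * s * x) := by group
              rw [this, hxw, ht]
              rfl
            have e2 : Reg ℓ t := by
              have e3 : t = (⟨x, hx⟩ : Cu u)⁻¹ * s * ((⟨x, hx⟩ : Cu u)⁻¹)⁻¹ := by
                rw [ht, inv_inv]
              unfold Reg at hs ⊢
              have e4 : orderOf t = orderOf s := by
                rw [e3, ← MulAut.conj_apply]
                exact MulEquiv.orderOf_eq _ _
              rw [e4]
              exact hs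
            have e5 : q (π t) = q (π s) := by
              have e6 : π t = (π ⟨x, hx⟩)⁻¹ * π s * ((π ⟨x, hx⟩)⁻¹)⁻¹ := by
                rw [ht, map_mul, map_mul, map_inv, inv_inv]
              rw [e6, hq.cl]
            rw [if_pos e1, if_pos hs, if_pos e2, if_pos hs, e5]
          · intro s' _ hne
            by_cases h : x⁻¹ * (w * s) * x = w * s'
            · rw [if_pos h]
              by_cases hs' : Reg ℓ s'
              · exfalso
                apply hne
                apply Subtype.ext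
                rw [ht]
                exact (parts_conj hQ.ord hw hw hs hs' h).2.symm
              · rw [if_neg hs', mul_zero]
            · rw [if_neg h]
          · intro h
            exact absurd (Finset.mem_univ _) h
        · have e0 : (if Reg ℓ s then starRingEnd ℂ (p (π s)) * q (π s) else 0) = 0 := if_neg hs
          rw [e0]
          refine Finset.sum_eq_zero fun s' _ => ?_
          rw [if_neg hs, zero_mul, ite_self]
      · rw [if_neg hx]
        refine Finset.sum_eq_zero fun s _ => Finset.sum_eq_zero fun s' _ => ?_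
        by_cases h : x⁻¹ * (w * s) * x = w * s'
        · rw [if_pos h]
          by_cases hs : Reg ℓ s
          · by_cases hs' : Reg ℓ s'
            · exfalso
              apply hx
              have h2 := (parts_conj hQ.ord hw hw hs hs' h).1
              have h3 : Commute x w := by
                have : w * x = x * w := by
                  calc w * x = x * (x⁻¹ * w * x) := by group
                    _ = x * w := by rw [h2]
                exact this.symm
              obtain ⟨k, hk⟩ := gen_pow hj hQ.ord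
              rw [Subgroup.mem_centralizer_singleton_iff, hk, ← hwj]
              exact (h3.pow_right k).eq
            · rw [if_neg hs', mul_zero]
          · rw [if_neg hs, zero_mul]
        · rw [if_neg h]
    rw [Finset.sum_congr rfl fun x _ => h1 x]
    rw [← Finset.sum_filter, Finset.sum_const, nsmul_eq_mul]
    have h2 : ((Finset.univ.filter fun x : G => x ∈ Cu u).card : ℂ) = (ℓ : ℂ) ^ n * Nat.card H := by
      have h3 : (Finset.univ.filter fun x : G => x ∈ Cu u).card = Nat.card (Cu u) := by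
        rw [Nat.card_eq_fintype_card]
        exact (Fintype.card_subtype _).symm
      rw [h3, qt_card hQ]
      push_cast
      rfl
    rw [h2, sum_reg (f := fun h => starRingEnd ℂ (p h) * q h) hQ.sur (qt_pow hQ) (qt_comm hQ)]
    have h4 : ∑ h : H, (if Reg ℓ h then starRingEnd ℂ (p h) * q h else 0) =
        ∑ h : H, q h * starRingEnd ℂ (p h) := by
      refine Finset.sum_congr rfl fun h _ => ?_
      by_cases hh : Reg ℓ h
      · rw [if_pos hh, mul_comm]
      · rw [if_neg hh, hq.sg h hh, zero_mul]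
    rw [h4]
    unfold ipn
    rw [finsum_eq_sum_of_fintype]
    have h5 : (Nat.card H : ℂ) ≠ 0 := by
      exact_mod_cast Nat.card_pos.ne'
    field_simp
  · intro j' _ hnc
    obtain ⟨w', hwj'⟩ : ∃ w', w' = u ^ j' := ⟨_, rfl⟩
    have hw' : w' ∈ Subgroup.zpowers u := by
      rw [hwj']
      exact Subgroup.pow_mem _ (Subgroup.mem_zpowers u) j'
    rw [← hwj'] at hnc ⊢
    rw [gen w' hw']
    have h1 : ∑ x : G, ∑ s : Cu u, ∑ s' : Cu u, (if x⁻¹ * (w * s) * x = w' * s' then
          (if Reg ℓ s then starRingEnd ℂ (p (π s)) else 0) * (if Reg ℓ s' then q (π s') else 0)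
        else 0) = 0 := by
      refine Finset.sum_eq_zero fun x _ => Finset.sum_eq_zero fun s _ =>
        Finset.sum_eq_zero fun s' _ => ?_
      by_cases h : x⁻¹ * (w * s) * x = w' * s'
      · rw [if_pos h]
        by_cases hs : Reg ℓ s
        · by_cases hs' : Reg ℓ s'
          · exfalso
            apply hnc
            refine ⟨x⁻¹, ?_⟩
            rw [inv_inv]
            exact (parts_conj hQ.ord hw hw' hs hs' h).1.symm
          · rw [if_neg hs', mul_zero]
        · rw [if_neg hs, zero_mul]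
      · rw [if_neg h]
    rw [h1, mul_zero]

end Pool.Agent.PP.C2.H25
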