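import Pool.Agent.Helper57_C2.Stmts
import Pool.Agent.Helper25_K9.PRG
import Pool.Agent.Helper53_K9.Tra
import Pool.Agent.Helper82_K9.TRB
import Pool.Agent.Helper82_K9.WBO
import Pool.Agent.Helper3_K9.Psi

/-!
# Squad C2, row PRG2: the number `A_χ` for the projective character, `u` of order `ℓ ^ n`

Same proof as row PRG of squad K9 (`Pool/Agent/Helper25_K9/PRG.lean`).
-/

open scoped BigOperators

noncomputable section

namespace Pool.Agent.PP.C2.H25P

open Pool.Agent.Helper51_AWC Pool.Agent.Helper79_WRA Pool.Agent.PP Pool.Agent.PP.KF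
open Pool.Agent.PP.K9 Pool.Agent.PP.K9.H25

attribute [local instance] Ideal.Quotient.field

set_option linter.unusedSectionVars false

/-- a regular element times a non-trivial element of the central cyclic subgroup of order
`ℓ ^ n` is not regular -/
theorem reg_ker {ℓ : ℕ} [Fact ℓ.Prime] {n : ℕ} {G H : Type} [Group G] [Finite G] [Group H] {u : G}
    {π : Cu u →* H} (hq : Qn (ℓ ^ n) u π) {s c : Cu u} (hs : Reg ℓ s) (hc : Reg ℓ c)
    (h : π c = π s) : c = s := by
  have h1 : π (s⁻¹ * c) = 1 := by rw [map_mul, map_inv, h, inv_mul_cancel]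
  have h2 : ((s⁻¹ * c : Cu u) : G) ∈ Subgroup.zpowers u := (hq.ker _).1 h1
  obtain ⟨j, hj⟩ := h2
  have hcomm : Commute s⁻¹ c := by
    have h3 : Commute s (s⁻¹ * c) := by
      apply Subtype.ext
      have h4 : (s : G) * u = u * s := (Subgroup.mem_centralizer_singleton_iff.1 s.2)
      have h5 : Commute (s : G) (u ^ j) := (show Commute (s : G) u from h4).zpow_right j
      have h6 : ((s⁻¹ * c : Cu u) : G) = u ^ j := hj.symm
      change (s : G) * ((s⁻¹ * c : Cu u) : G) = ((s⁻¹ * c : Cu u) : G) * (s : G)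
      rw [h6]
      exact h5
    have h4 : Commute s c := by
      have h5 : c = s * (s⁻¹ * c) := by group
      rw [h5]
      exact (Commute.refl s).mul_right h3
    exact h4.inv_left
  have h3 : (orderOf (s⁻¹ * c)).Coprime ℓ := by
    have h4 := hcomm.orderOf_mul_dvd_mul_orderOf
    have h5 : (orderOf s⁻¹ * orderOf c).Coprime ℓ :=
      Nat.Coprime.mul_left (by rw [orderOf_inv]; exact hs) hc
    exact Nat.Coprime.coprime_dvd_left h4 h5
  have h4 : (s⁻¹ * c) ^ ℓ ^ n = 1 := by
    apply Subtype.ext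
    change ((s⁻¹ * c : Cu u) : G) ^ ℓ ^ n = 1
    rw [← hj]
    change (u ^ j) ^ ℓ ^ n = 1
    rw [← zpow_natCast, ← zpow_mul, mul_comm, zpow_mul, zpow_natCast, ← hq.ord, pow_orderOf_eq_one,
      one_zpow]
  have h5 : orderOf (s⁻¹ * c) ∣ ℓ ^ n := orderOf_dvd_of_pow_eq_one h4
  have h6 : orderOf (s⁻¹ * c) = 1 :=
    Nat.eq_one_of_dvd_coprimes (h3.pow_right n) dvd_rfl h5
  rw [orderOf_eq_one_iff] at h6
  exact (inv_mul_eq_one.1 h6).symm

theorem prg2_of (wbo : WboStmt) (psi : PsiStmt) : Prg2Stmt := by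
  classical
  intro ℓ _ M _ hM n G H _ _ _ _ u π hq b hb w _ χ _
  have := Fintype.ofFinite G
  have := Fintype.ofFinite H
  have := Fintype.ofFinite (Cu u)
  have hc : (Fintype.card H : ℂ) ≠ 0 := by exact_mod_cast Fintype.card_ne_zero
  have h1 : ∀ s : Cu u, Reg ℓ s → eh M (H75.push π b) (π s) = eh M b s := by
    intro s hs
    rw [eh_push psi M π hq.sur b hb.1, Finset.sum_eq_single s]
    · rw [if_pos rfl]
    · intro c _ hcs
      by_cases hpc : π c = π s
      · rw [if_pos hpc]
        refine eh_sing wbo ℓ M hM b hb c fun hcr => hcs ?_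
        exact reg_ker hq hs hcr hpc
      · rw [if_neg hpc]
    · intro h
      exact absurd (Finset.mem_univ _) h
  unfold Av gbv
  rw [finsum_eq_sum_of_fintype, finsum_eq_sum_of_fintype, Nat.card_eq_fintype_card, Finset.mul_sum]
  refine Finset.sum_congr rfl fun s _ => ?_
  by_cases hs : Reg ℓ s
  · rw [finsum_eq_if, if_pos hs, star_pr, h1 s hs]
    field_simp
  · rw [finsum_eq_if, if_neg hs, mul_zero, eh_sing wbo ℓ M hM b hb s hs, zero_mul]

theorem prg2 : Prg2Stmt := prg2_of (H82W.wbo (H82.trb H53.tra)) H3.psi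

end Pool.Agent.PP.C2.H25P
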